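import Pool.Agent.PSS.StmtsS0

/-!
# Squad PSS, row BPU: the class is stable under Brauer quotients
-/

open scoped BigOperators TensorProduct

noncomputable section

namespace Pool.Agent.PSS.H65

open Pool.Agent.PSS.S0
open Pool.Agent.PFC (tw IsTv)
open Pool.Agent.PFD.D2b (FrR)

variable {R : Type} {V E A B : Type} [CommRing R] [CommGroup V] [Group E] [Ring A] [Algebra R A]
  [Ring B] [Algebra R B]

lemma bw_app (α : V →* A) (w : V × V) (a : A) : bw R α w a = α w.1 * (a * α w.2⁻¹) := rfl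

lemma mem_fx_iff (α : V →* A) (Q : Subgroup V) (a : A) :
    a ∈ FxR (cw R α) Q ↔ ∀ q ∈ Q, α q * a = a * α q := by
  constructor
  · intro h q hq
    have h1 : α q * (a * α q⁻¹) = a := h q hq
    calc α q * a = α q * (a * α q⁻¹) * α q := by
          rw [mul_assoc, mul_assoc, ← map_mul, inv_mul_cancel, map_one, mul_one]
      _ = a * α q := by rw [h1]
  · intro h q hq
    show α q * (a * α q⁻¹) = a
    rw [← mul_assoc, h q hq, mul_assoc, ← map_mul, mul_inv_cancel, map_one, mul_one]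

lemma mem_tw (φ : V →* V) (S : Subgroup V) (w : V × V) :
    w ∈ tw φ S ↔ w.2 ∈ S ∧ w.1 = φ w.2 := by
  unfold tw
  rw [Subgroup.mem_map]
  constructor
  · rintro ⟨s, hs, rfl⟩
    exact ⟨hs, rfl⟩
  · rintro ⟨h1, h2⟩
    refine ⟨w.2, h1, ?_⟩
    rw [MonoidHom.prod_apply, MonoidHom.id_apply, ← h2]

/-- BPU. -/
theorem bpu (hSfq : SfqStmt) (hLmb : LmbStmt) (hRfd : RfdStmt) (hRfo : RfoStmt) : BpuStmt := by
  intro ℓ _ R V E A B K _ _ _ _ _ _ _ _ _ φ α Q αB β lam x y E1 hℓ hV hPer hUni hRF hB hE1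
  obtain ⟨Ω, iΩ, iA, b, c, hfr, hst⟩ := hPer
  have hfree : ∀ (v : V) (ω : Ω), ((1, v) : V × V) • ω = ω → v = 1 := by
    intro v ω h
    obtain ⟨e, S, hs⟩ := hst ω
    have h1 : ((1, v) : V × V) ∈ MulAction.stabilizer (V × V) ω := h
    rw [hs, mem_tw] at h1
    have h2 : (1 : V) = φ e v := h1.2
    exact (map_eq_one_iff (φ e) (φ e).injective).1 h2.symm
  obtain ⟨d, hcd, hSF⟩ := hRfd R V A K Ω α lam x y b c hRF hfr hfree
  obtain ⟨lamB, hlB⟩ := hLmb ℓ R V A B α Q αB β lam hℓ hV hRF.sym hB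
  have hfin : Fintype (OQt Q (1 : MulAut V) Ω) := Fintype.ofFinite _
  have hSF2 := (hSfq R V A B Ω α Q αB β lam lamB b d 1 1 1 hSF hB hlB (mul_one 1) (mul_one 1)
    (fun u => by rw [one_mul, mul_one]; rfl)).2
  refine ⟨?_, ?_, ?_⟩
  · refine ⟨OQt Q (1 : MulAut V) Ω, hfin, inferInstance,
      (fun ω : OQt Q (1 : MulAut V) Ω => β (b ω * 1)),
      fun ω => lamB.comp (LinearMap.mulLeft R (β (1 * d (ω : Ω)))), ⟨?_, ?_, ?_⟩, ?_⟩
    · intro g ω
      have h1 := hSF2.eb g ω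
      rw [bw_app]
      refine h1.trans ?_
      rw [mul_assoc]
      rfl
    · intro g ω n
      have h1 := hSF2.ed g ω
      show lamB (β (1 * d ((g • ω : OQt Q (1 : MulAut V) Ω) : Ω)) *
        (αB g.1 * (n * αB g.2⁻¹))) = lamB (β (1 * d (ω : Ω)) * n)
      have h2 : β (1 * d ((g • ω : OQt Q (1 : MulAut V) Ω) : Ω)) =
          αB g.2 * β (1 * d (ω : Ω)) * αB g.1⁻¹ := h1
      rw [h2, hSF2.sym]
      have h3 : αB g.1 * (n * αB g.2⁻¹) * (αB g.2 * β (1 * d (ω : Ω)) * αB g.1⁻¹) =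
          αB g.1 * (n * β (1 * d (ω : Ω)) * αB g.1⁻¹) := by
        have h4 : αB g.2⁻¹ * αB g.2 = 1 := by rw [← map_mul, inv_mul_cancel, map_one]
        calc αB g.1 * (n * αB g.2⁻¹) * (αB g.2 * β (1 * d (ω : Ω)) * αB g.1⁻¹)
            = αB g.1 * (n * (αB g.2⁻¹ * αB g.2) * β (1 * d (ω : Ω)) * αB g.1⁻¹) := by
              noncomm_ring
          _ = _ := by rw [h4, mul_one]
      rw [h3, hSF2.sym, mul_assoc, ← map_mul αB, inv_mul_cancel, map_one, mul_one, hSF2.sym]
    · intro n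
      exact hSF2.fr n
    · intro ω
      obtain ⟨e, S, hs⟩ := hst (ω : Ω)
      have he : e ∈ E1 := by
        rw [hE1]
        intro q hq
        have h1 : ((q, (1 : MulAut V)⁻¹ q) : V × V) • (ω : Ω) = ω := ω.2 q hq
        have h2 : ((q, q) : V × V) ∈ MulAction.stabilizer (V × V) (ω : Ω) := h1
        rw [hs, mem_tw] at h2
        exact h2.2.symm
      refine ⟨⟨e, he⟩, S, ?_⟩
      have h3 : MulAction.stabilizer (V × V) ω = MulAction.stabilizer (V × V) (ω : Ω) := by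
        ext g
        rw [MulAction.mem_stabilizer_iff, MulAction.mem_stabilizer_iff]
        constructor
        · intro h
          exact congrArg Subtype.val h
        · intro h
          exact Subtype.ext h
      rw [h3, hs]
      rfl
  · rintro ⟨e, he⟩
    obtain ⟨n, n', h1, h2, h3⟩ := hUni e
    have hq := (hE1 e).1 he
    have hn : n ∈ FxR (cw R α) Q := by
      rw [mem_fx_iff]
      intro q hqQ
      rw [h3, hq q hqQ]
    have hn' : n' ∈ FxR (cw R α) Q := by
      rw [mem_fx_iff] at hn ⊢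
      intro q hqQ
      calc α q * n' = n' * n * (α q * n') := by rw [h2, one_mul]
        _ = n' * (n * α q) * n' := by noncomm_ring
        _ = n' * (α q * n) * n' := by rw [hn q hqQ]
        _ = n' * α q * (n * n') := by noncomm_ring
        _ = n' * α q := by rw [h1, mul_one]
    have hu : ∀ u, α u ∈ FxR (cw R α) Q := by
      intro u
      rw [mem_fx_iff]
      intro q _
      rw [← map_mul, ← map_mul, mul_comm]
    refine ⟨β n, β n', ?_, ?_, ?_⟩
    · rw [← hB.mul n hn n' hn', h1, hB.one]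
    · rw [← hB.mul n' hn' n hn, h2, hB.one]
    · intro u
      rw [← hB.om, ← hB.mul n hn _ (hu u), h3, hB.mul _ (hu _) n hn, hB.om]
      rfl
  · have hfq : Fintype (Quotient (ROrb V (OQt Q (1 : MulAut V) Ω))) := Fintype.ofFinite _
    obtain ⟨x', y', hx, -⟩ := hRfo R V B (OQt Q (1 : MulAut V) Ω) 1 αB lamB
      (fun ω : OQt Q (1 : MulAut V) Ω => β (b ω * 1))
      (fun ω : OQt Q (1 : MulAut V) Ω => β (1 * d ω)) hSF2
    exact ⟨lamB, _, hfq, x', y', hx, hlB⟩

end Pool.Agent.PSS.H65
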